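import Pool.Agent.K3h46.AS.Stm

/-!
Brick IND of helper46's project AS (MP_bd895b_nt): induction on the degree in `w`.
-/

set_option autoImplicit false

open scoped KaehlerDifferential

namespace Pool.Agent.K3h16.AS

open Pool.Agent.K3h46.AS Polynomial

section push

variable {A B : Type} [CommRing A] [CommRing B]

theorem exists_push (σ : A →+* B) :
    ∃ Φ : Ω[A⁄ℤ] →+ Ω[B⁄ℤ], ∀ c y : A, Φ (c • KaehlerDifferential.D ℤ A y) =
      σ c • KaehlerDifferential.D ℤ B (σ y) := by
  let _ := σ.toAlgebra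
  refine ⟨(KaehlerDifferential.map ℤ ℤ A B).toAddMonoidHom, ?_⟩
  intro c y
  simp only [LinearMap.toAddMonoidHom_coe, map_smul, KaehlerDifferential.map_D]
  rw [← algebraMap_smul B c]
  rfl

theorem push_form (σ : A →+* B) (Φ : Ω[A⁄ℤ] →+ Ω[B⁄ℤ])
    (hΦ : ∀ c y : A, Φ (c • KaehlerDifferential.D ℤ A y) = σ c • KaehlerDifferential.D ℤ B (σ y))
    (x t a b : A) : Φ (form x t a b) = form (σ x) (σ t) (σ a) (σ b) := by
  unfold form
  rw [map_add, hΦ, hΦ]

theorem push_exact (σ : A →+* B) (Φ : Ω[A⁄ℤ] →+ Ω[B⁄ℤ])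
    (hΦ : ∀ c y : A, Φ (c • KaehlerDifferential.D ℤ A y) = σ c • KaehlerDifferential.D ℤ B (σ y))
    (c : A) : Φ (exact c) = exact (σ c) := by
  unfold exact
  have := hΦ 1 c
  rwa [one_smul, map_one, one_smul] at this

theorem push_triv (p : ℕ) {E E' : Type} [Field E] [Field E'] (σ : E →+* E')
    (Φ : Ω[E⁄ℤ] →+ Ω[E'⁄ℤ])
    (hΦ : ∀ c y : E, Φ (c • KaehlerDifferential.D ℤ E y) = σ c • KaehlerDifferential.D ℤ E' (σ y))
    (ω : Ω[E⁄ℤ]) (h : ω ∈ Triv p E) : Φ ω ∈ Triv p E' := by
  unfold Triv at *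
  induction h using AddSubgroup.closure_induction with
  | mem ω hω =>
    rcases hω with ⟨h, rfl⟩ | ⟨a, b, hb, rfl⟩
    · have h1 := push_exact σ Φ hΦ h
      unfold exact at h1
      rw [h1]
      exact AddSubgroup.subset_closure (Or.inl ⟨_, rfl⟩)
    · rw [hΦ]
      apply AddSubgroup.subset_closure
      right
      refine ⟨σ a, σ b, ?_, ?_⟩
      · intro h0
        exact hb ((map_eq_zero σ).1 h0)
      · rw [map_mul, map_sub, map_pow, map_inv₀]
  | zero => rw [map_zero]; exact zero_mem _
  | add x y _ _ hx hy => rw [map_add]; exact add_mem hx hy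
  | neg x _ hx => rw [map_neg]; exact neg_mem hx

end push

section formula

variable {S : Type} [CommRing S]

theorem form_add (x t a b a' b' : S) : form x t (a + a') (b + b') = form x t a b + form x t a' b' := by
  unfold form
  rw [add_smul, add_smul]
  abel

theorem form_sub (x t a b a' b' : S) : form x t (a - a') (b - b') = form x t a b - form x t a' b' := by
  unfold form
  rw [sub_smul, sub_smul]
  abel

theorem form_zero (x t : S) : form x t 0 0 = 0 := by
  unfold form
  rw [zero_smul, zero_smul, add_zero]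

theorem exact_add (c c' : S) : exact (c + c') = exact c + exact c' := by
  unfold exact
  rw [map_add]

/-- the forms with `(1 - C)` shape are trivial -/
theorem triv_gen (p : ℕ) (hp : 0 < p) {E : Type} [Field E] (y s : E) :
    (y ^ p * s ^ (p - 1) - y) • KaehlerDifferential.D ℤ E s ∈ Triv p E := by
  by_cases hs : s = 0
  · rw [hs, map_zero, smul_zero]
    exact zero_mem _
  · apply AddSubgroup.subset_closure
    right
    refine ⟨y * s, s, hs, ?_⟩
    congr 1
    have h1 : (y * s) ^ p = y ^ p * s ^ (p - 1) * s := by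
      rw [mul_pow]
      conv_lhs => rw [← Nat.sub_add_cancel hp, pow_succ s]
      rw [Nat.sub_add_cancel hp]
      ring
    rw [h1]
    field_simp

theorem triv_form (p : ℕ) (hp : 0 < p) {E : Type} [Field E] (g h x t : E) :
    form x t (g ^ p * x ^ (p - 1) - g) (h ^ p * t ^ (p - 1) - h) ∈ Triv p E := by
  unfold form
  exact add_mem (triv_gen p hp g x) (triv_gen p hp h t)

theorem triv_exact (p : ℕ) {E : Type} [Field E] (c : E) : exact c ∈ Triv p E :=
  AddSubgroup.subset_closure (Or.inl ⟨c, rfl⟩)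

end formula

section fd

variable {A : Type} [CommRing A]

/-- finite difference -/
noncomputable def fd (q : A[X]) : A[X] := taylor 1 q - q

theorem fd_coeff (k : ℕ) (q : A[X]) (hq : q.natDegree ≤ k + 1) :
    (fd q).natDegree ≤ k ∧ (fd q).coeff k = (k + 1 : ℕ) * q.coeff (k + 1) := by
  have hc : ∀ n : ℕ, (taylor 1 q).coeff n =
      ∑ i ∈ Finset.range (k + 2), ((i + n).choose n : A) * q.coeff (i + n) := by
    intro n
    rw [taylor_coeff, eval_eq_sum_range' (n := k + 2)]
    · apply Finset.sum_congr rfl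
      intro i _
      rw [hasseDeriv_coeff, one_pow, mul_one]
    · have := natDegree_hasseDeriv_le q n
      omega
  constructor
  · rw [natDegree_le_iff_coeff_eq_zero]
    intro N hN
    unfold fd
    rw [coeff_sub, hc]
    rw [Finset.sum_eq_single 0]
    · simp
    · intro i _ hi
      rw [coeff_eq_zero_of_natDegree_lt (by omega), mul_zero]
    · intro h
      simp at h
  · unfold fd
    rw [coeff_sub, hc, Finset.sum_range_succ', Finset.sum_range_succ',
      Finset.sum_eq_zero]
    · simp only [zero_add, Nat.choose_self, Nat.cast_one, one_mul]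
      rw [Nat.add_comm 1 k, Nat.choose_succ_self_right]
      ring
    · intro i hi
      rw [coeff_eq_zero_of_natDegree_lt (by omega), mul_zero]

theorem fd_iter (k : ℕ) : ∀ q : A[X], q.natDegree ≤ k →
    fd^[k] q = C ((k.factorial : A) * q.coeff k) := by
  induction k with
  | zero =>
    intro q hq
    rw [Function.iterate_zero, id, Nat.factorial_zero, Nat.cast_one, one_mul]
    exact eq_C_of_natDegree_le_zero hq
  | succ k ih =>
    intro q hq
    obtain ⟨h1, h2⟩ := fd_coeff k q hq
    rw [Function.iterate_succ_apply, ih _ h1, h2, Nat.factorial_succ]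
    push_cast
    ring_nf

end fd

section surf

variable {p : ℕ} {F : Type} [Field F] {f : MvPolynomial (Fin 2) F} {S : Type} [CommRing S]

theorem p_smul (hS : ((p : ℕ) : S) = 0) (v : Ω[S⁄ℤ]) : p • v = 0 := by
  rw [← Nat.cast_smul_eq_nsmul S, hS, zero_smul]

theorem D_pow_p (hS : ((p : ℕ) : S) = 0) (y : S) : KaehlerDifferential.D ℤ S (y ^ p) = 0 := by
  rw [Derivation.leibniz_pow]
  exact p_smul hS _

theorem smul_form (x t a b s : S) : s • form x t a b = form x t (s * a) (s * b) := by
  unfold form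
  rw [smul_add, ← mul_smul, ← mul_smul]

theorem form_one_zero (x t : S) : form x t 1 0 = KaehlerDifferential.D ℤ S x := by
  unfold form
  rw [one_smul, zero_smul, add_zero]

theorem form_zero_one (x t : S) : form x t 0 1 = KaehlerDifferential.D ℤ S t := by
  unfold form
  rw [one_smul, zero_smul, zero_add]

theorem D_of [Fact p.Prime] [CharP F p] [PerfectRing F p] (hS : ((p : ℕ) : S) = 0)
    (o : MvPolynomial (Fin 2) F →+* S) (c : MvPolynomial (Fin 2) F) :
    KaehlerDifferential.D ℤ S (o c) =
      form (o (MvPolynomial.X 0)) (o (MvPolynomial.X 1)) (o (MvPolynomial.pderiv 0 c))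
        (o (MvPolynomial.pderiv 1 c)) := by
  induction c using MvPolynomial.induction_on with
  | C a =>
    obtain ⟨e, he⟩ := surjective_frobenius F p a
    rw [frobenius_def] at he
    rw [MvPolynomial.pderiv_C, MvPolynomial.pderiv_C, map_zero, form_zero,
      ← he, map_pow, map_pow]
    exact D_pow_p hS _
  | add c c' h h' =>
    rw [map_add, map_add, h, h', map_add, map_add, map_add, map_add, form_add]
  | mul_X c i h =>
    rw [map_mul, Derivation.leibniz, h, Derivation.leibniz, Derivation.leibniz, smul_form]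
    fin_cases i
    · show _ • KaehlerDifferential.D ℤ S (o (MvPolynomial.X 0)) + _ = _
      rw [← form_one_zero (o (MvPolynomial.X 0)) (o (MvPolynomial.X 1)), smul_form, ← form_add]
      congr 1
      · show _ = o (c • MvPolynomial.pderiv 0 (MvPolynomial.X 0) + _)
        rw [MvPolynomial.pderiv_X_self]
        simp only [smul_eq_mul, map_add, map_mul, map_one]
      · show _ = o (c • MvPolynomial.pderiv 1 (MvPolynomial.X 0) + _)
        rw [MvPolynomial.pderiv_X_of_ne (by decide : (0 : Fin 2) ≠ 1)]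
        simp only [smul_eq_mul, map_add, map_mul, map_zero]
    · show _ • KaehlerDifferential.D ℤ S (o (MvPolynomial.X 1)) + _ = _
      rw [← form_zero_one (o (MvPolynomial.X 0)) (o (MvPolynomial.X 1)), smul_form, ← form_add]
      congr 1
      · show _ = o (c • MvPolynomial.pderiv 0 (MvPolynomial.X 1) + _)
        rw [MvPolynomial.pderiv_X_of_ne (by decide : (1 : Fin 2) ≠ 0)]
        simp only [smul_eq_mul, map_add, map_mul, map_zero]
      · show _ = o (c • MvPolynomial.pderiv 1 (MvPolynomial.X 1) + _)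
        rw [MvPolynomial.pderiv_X_self]
        simp only [smul_eq_mul, map_add, map_mul, map_one]

theorem D_root [Fact p.Prime] [CharP F p] [PerfectRing F p] (hS : ((p : ℕ) : S) = 0)
    (o : MvPolynomial (Fin 2) F →+* S) (W : S) (hW : W ^ p - W = o f) :
    KaehlerDifferential.D ℤ S W =
      form (o (MvPolynomial.X 0)) (o (MvPolynomial.X 1)) (-(o (MvPolynomial.pderiv 0 f)))
        (-(o (MvPolynomial.pderiv 1 f))) := by
  have h1 : W = W ^ p - o f := by rw [← hW]; ring
  have h2 : KaehlerDifferential.D ℤ S W = KaehlerDifferential.D ℤ S (W ^ p - o f) := congrArg _ h1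
  rw [h2, map_sub, D_pow_p hS, D_of hS, ← form_zero (o (MvPolynomial.X 0)) (o (MvPolynomial.X 1)),
    ← form_sub, zero_sub, zero_sub]

theorem exact_mul [Fact p.Prime] [CharP F p] [PerfectRing F p] (hS : ((p : ℕ) : S) = 0)
    (o : MvPolynomial (Fin 2) F →+* S) (W : S) (hW : W ^ p - W = o f)
    (c : MvPolynomial (Fin 2) F) (k : ℕ) :
    exact (o c * W ^ k) =
      form (o (MvPolynomial.X 0)) (o (MvPolynomial.X 1))
        (o (MvPolynomial.pderiv 0 c) * W ^ k -
          (k : S) * o (c * MvPolynomial.pderiv 0 f) * W ^ (k - 1))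
        (o (MvPolynomial.pderiv 1 c) * W ^ k -
          (k : S) * o (c * MvPolynomial.pderiv 1 f) * W ^ (k - 1)) := by
  unfold exact
  rw [Derivation.leibniz, Derivation.leibniz_pow, D_root hS o W hW, D_of hS,
    ← Nat.cast_smul_eq_nsmul S, smul_form, smul_form, smul_form, smul_form, ← form_add]
  congr 1
  · rw [map_mul]; ring
  · rw [map_mul]; ring

end surf

section main

variable {p : ℕ} [Fact p.Prime] {F : Type} [Field F] [CharP F p] [PerfectRing F p]
  {f : MvPolynomial (Fin 2) F} {S : Type} [CommRing S] {L : Type} [Field L]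

theorem sigma_eval (o : MvPolynomial (Fin 2) F →+* S) (W : S) (j : S →+* L) (σ : L →+* L)
    (h1 : ∀ a, σ (j (o a)) = j (o a)) (h2 : σ (j W) = j W + 1)
    (q : Polynomial (MvPolynomial (Fin 2) F)) :
    σ (j (eval₂ o W q)) = j (eval₂ o W (taylor 1 q)) := by
  induction q using Polynomial.induction_on' with
  | add q r hq hr => rw [eval₂_add, map_add, map_add, hq, hr, map_add, eval₂_add, map_add]
  | monomial n a =>
    rw [taylor_monomial, eval₂_mul, eval₂_pow, eval₂_add, eval₂_C, eval₂_C, eval₂_X,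
      eval₂_monomial, map_mul, map_mul, map_pow, map_pow, h1, h2, map_mul, map_pow, map_add,
      map_one, map_one]

theorem fd_triv (o : MvPolynomial (Fin 2) F →+* S) (W : S) (j : S →+* L) (σ : L →+* L)
    (h1 : ∀ a, σ (j (o a)) = j (o a)) (h2 : σ (j W) = j W + 1) (k : ℕ) :
    ∀ q r : Polynomial (MvPolynomial (Fin 2) F),
      form (j (o (MvPolynomial.X 0))) (j (o (MvPolynomial.X 1))) (j (eval₂ o W q))
        (j (eval₂ o W r)) ∈ Triv p L →
      form (j (o (MvPolynomial.X 0))) (j (o (MvPolynomial.X 1))) (j (eval₂ o W (fd^[k] q)))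
        (j (eval₂ o W (fd^[k] r))) ∈ Triv p L := by
  induction k with
  | zero => intro q r h; exact h
  | succ k ih =>
    intro q r h
    rw [Function.iterate_succ_apply, Function.iterate_succ_apply]
    apply ih
    unfold fd
    rw [eval₂_sub, eval₂_sub, map_sub, map_sub, form_sub]
    apply sub_mem _ h
    obtain ⟨Φ, hΦ⟩ := exists_push σ
    have h3 := push_triv p σ Φ hΦ _ h
    rw [push_form σ Φ hΦ, h1, h1, sigma_eval o W j σ h1 h2, sigma_eval o W j σ h1 h2] at h3
    exact h3

theorem coprime_triv (hL : ((p : ℕ) : L) = 0) (k : ℕ) (hk : k < p) (ω : Ω[L⁄ℤ])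
    (h : k.factorial • ω ∈ Triv p L) : ω ∈ Triv p L := by
  have hp : p.Prime := Fact.out
  have hc : Nat.Coprime k.factorial p := by
    rw [Nat.coprime_comm, hp.coprime_iff_not_dvd, hp.dvd_factorial]
    omega
  obtain ⟨u, -, hu⟩ := Nat.exists_mul_mod_eq_one_of_coprime hc hp.one_lt
  have h1 : k.factorial * u = 1 + p * (k.factorial * u / p) := by
    conv_lhs => rw [← Nat.mod_add_div (k.factorial * u) p, hu]
  have h2 : u • (k.factorial • ω) = ω := by
    rw [← mul_smul, mul_comm, h1, add_smul, one_smul, mul_smul, p_smul hL, add_zero]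
  rw [← h2]
  exact nsmul_mem h u

theorem ind_main (hS : ((p : ℕ) : S) = 0)
    (o : MvPolynomial (Fin 2) F →+* S) (W : S) (hW : W ^ p - W = o f) (j : S →+* L) (σ : L →+* L)
    (h1 : ∀ a, σ (j (o a)) = j (o a)) (h2 : σ (j W) = j W + 1)
    (H : ∀ a b : MvPolynomial (Fin 2) F,
      form (j (o (MvPolynomial.X 0))) (j (o (MvPolynomial.X 1))) (j (o a)) (j (o b)) ∈ Triv p L →
        TrivA p a b) (k : ℕ) (hk : k ≤ p) :
    ∀ q r : Polynomial (MvPolynomial (Fin 2) F), (∀ m, k ≤ m → q.coeff m = 0) →
      (∀ m, k ≤ m → r.coeff m = 0) →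
      form (j (o (MvPolynomial.X 0))) (j (o (MvPolynomial.X 1))) (j (eval₂ o W q))
        (j (eval₂ o W r)) ∈ Triv p L →
      ∃ c g h : S, form (o (MvPolynomial.X 0)) (o (MvPolynomial.X 1)) (eval₂ o W q) (eval₂ o W r) =
        exact c + form (o (MvPolynomial.X 0)) (o (MvPolynomial.X 1))
          (g ^ p * (o (MvPolynomial.X 0)) ^ (p - 1) - g)
          (h ^ p * (o (MvPolynomial.X 1)) ^ (p - 1) - h) := by
  have hp : p.Prime := Fact.out
  have hL : ((p : ℕ) : L) = 0 := by
    have := congrArg j hS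
    rwa [map_natCast, map_zero] at this
  have hnt : Nontrivial S := j.domain_nontrivial
  have hcS : CharP S p := (CharP.charP_iff_prime_eq_zero hp).2 hS
  have hcA : CharP (MvPolynomial (Fin 2) F) p := inferInstance
  obtain ⟨Ψ, hΨ⟩ := exists_push j
  induction k with
  | zero =>
    intro q r hq hr _
    have hq0 : q = 0 := by
      ext1 n
      rw [hq n (Nat.zero_le _), coeff_zero]
    have hr0 : r = 0 := by
      ext1 n
      rw [hr n (Nat.zero_le _), coeff_zero]
    refine ⟨0, 0, 0, ?_⟩
    rw [hq0, hr0, eval₂_zero, zero_pow hp.ne_zero, zero_mul, zero_mul, sub_zero, form_zero]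
    unfold exact
    rw [map_zero, add_zero]
  | succ k ih =>
    intro q r hq hr hqr
    have hqn : q.natDegree ≤ k := by
      rw [natDegree_le_iff_coeff_eq_zero]
      intro N hN
      exact hq N hN
    have hrn : r.natDegree ≤ k := by
      rw [natDegree_le_iff_coeff_eq_zero]
      intro N hN
      exact hr N hN
    -- the top coefficients
    have h3 := fd_triv o W j σ h1 h2 k q r hqr
    rw [fd_iter k q hqn, fd_iter k r hrn, eval₂_C, eval₂_C] at h3
    have h4 : form (j (o (MvPolynomial.X 0))) (j (o (MvPolynomial.X 1))) (j (o (q.coeff k)))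
        (j (o (r.coeff k))) ∈ Triv p L := by
      apply coprime_triv hL k (by omega)
      rw [← Nat.cast_smul_eq_nsmul L, smul_form]
      simpa only [map_mul, map_natCast] using h3
    obtain ⟨c, g, h, hc, hc'⟩ := H _ _ h4
    -- the correction
    have key : ∀ (i : Fin 2) (q : Polynomial (MvPolynomial (Fin 2) F)) (g : MvPolynomial (Fin 2) F),
        (∀ m, k + 1 ≤ m → q.coeff m = 0) →
        q.coeff k = MvPolynomial.pderiv i c + g ^ p * MvPolynomial.X i ^ (p - 1) - g →
        ∃ q' : Polynomial (MvPolynomial (Fin 2) F), (∀ m, k ≤ m → q'.coeff m = 0) ∧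
          eval₂ o W q = eval₂ o W q' + (o (MvPolynomial.pderiv i c) * W ^ k -
          (k : S) * o (c * MvPolynomial.pderiv i f) * W ^ (k - 1)) +
          ((o g * W ^ k) ^ p * o (MvPolynomial.X i) ^ (p - 1) - o g * W ^ k) := by
      intro i q g hq hqk
      refine ⟨q - C (MvPolynomial.pderiv i c) * X ^ k +
        C ((k : MvPolynomial (Fin 2) F) * (c * MvPolynomial.pderiv i f)) * X ^ (k - 1) -
        C (g ^ p * MvPolynomial.X i ^ (p - 1)) * (X + C f) ^ k + C g * X ^ k, ?_, ?_⟩
      · intro m hm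
        rw [coeff_add, coeff_sub, coeff_add, coeff_sub, coeff_C_mul, coeff_C_mul, coeff_C_mul,
          coeff_C_mul, coeff_X_pow, coeff_X_pow, coeff_X_add_C_pow]
        have h5 : (k : MvPolynomial (Fin 2) F) * (c * MvPolynomial.pderiv i f) *
            (if m = k - 1 then 1 else 0) = 0 := by
          by_cases hk0 : k = 0
          · rw [hk0, Nat.cast_zero, zero_mul, zero_mul]
          · rw [if_neg (by omega), mul_zero]
        rw [h5]
        rcases hm.eq_or_lt with rfl | hlt
        · rw [hqk, if_pos rfl, Nat.sub_self, pow_zero, Nat.choose_self, Nat.cast_one]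
          ring
        · rw [hq m hlt, if_neg (by omega), Nat.choose_eq_zero_of_lt hlt, Nat.cast_zero]
          ring
      · have hWp : W + o f = W ^ p := by rw [← hW]; ring
        rw [eval₂_add, eval₂_sub, eval₂_add, eval₂_sub, eval₂_mul, eval₂_mul, eval₂_mul, eval₂_mul,
          eval₂_C, eval₂_C, eval₂_C, eval₂_C, eval₂_pow, eval₂_pow, eval₂_pow, eval₂_add, eval₂_X,
          eval₂_C, hWp]
        simp only [map_mul, map_pow, map_natCast]
        ring
    obtain ⟨q', hq', hqe⟩ := key 0 q g hq hc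
    obtain ⟨r', hr', hre⟩ := key 1 r h hr hc'
    have h6 : form (o (MvPolynomial.X 0)) (o (MvPolynomial.X 1)) (eval₂ o W q) (eval₂ o W r) =
        form (o (MvPolynomial.X 0)) (o (MvPolynomial.X 1)) (eval₂ o W q') (eval₂ o W r') +
        exact (o c * W ^ k) + form (o (MvPolynomial.X 0)) (o (MvPolynomial.X 1))
          ((o g * W ^ k) ^ p * o (MvPolynomial.X 0) ^ (p - 1) - o g * W ^ k)
          ((o h * W ^ k) ^ p * o (MvPolynomial.X 1) ^ (p - 1) - o h * W ^ k) := by
      rw [hqe, hre, form_add, form_add, exact_mul hS o W hW]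
    have h7 : form (j (o (MvPolynomial.X 0))) (j (o (MvPolynomial.X 1))) (j (eval₂ o W q'))
        (j (eval₂ o W r')) ∈ Triv p L := by
      have h8 := congrArg Ψ h6
      rw [map_add, map_add, push_form j Ψ hΨ, push_form j Ψ hΨ, push_form j Ψ hΨ,
        push_exact j Ψ hΨ] at h8
      have h9 : form (j (o (MvPolynomial.X 0))) (j (o (MvPolynomial.X 1)))
          (j ((o g * W ^ k) ^ p * o (MvPolynomial.X 0) ^ (p - 1) - o g * W ^ k))
          (j ((o h * W ^ k) ^ p * o (MvPolynomial.X 1) ^ (p - 1) - o h * W ^ k)) ∈ Triv p L := by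
        have := triv_form p hp.pos (j (o g * W ^ k)) (j (o h * W ^ k)) (j (o (MvPolynomial.X 0)))
          (j (o (MvPolynomial.X 1)))
        simpa only [map_sub, map_mul, map_pow] using this
      have h10 : form (j (o (MvPolynomial.X 0))) (j (o (MvPolynomial.X 1))) (j (eval₂ o W q'))
          (j (eval₂ o W r')) = form (j (o (MvPolynomial.X 0))) (j (o (MvPolynomial.X 1)))
          (j (eval₂ o W q)) (j (eval₂ o W r)) - exact (j (o c * W ^ k)) -
          form (j (o (MvPolynomial.X 0))) (j (o (MvPolynomial.X 1)))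
          (j ((o g * W ^ k) ^ p * o (MvPolynomial.X 0) ^ (p - 1) - o g * W ^ k))
          (j ((o h * W ^ k) ^ p * o (MvPolynomial.X 1) ^ (p - 1) - o h * W ^ k)) := by
        rw [h8]
        abel
      rw [h10]
      exact sub_mem (sub_mem hqr (triv_exact p _)) h9
    obtain ⟨c₁, g₁, h₁, he⟩ := ih (by omega) q' r' hq' hr' h7
    refine ⟨c₁ + o c * W ^ k, g₁ + o g * W ^ k, h₁ + o h * W ^ k, ?_⟩
    rw [h6, he, exact_add, add_pow_char, add_pow_char]
    have e1 : (g₁ ^ p + (o g * W ^ k) ^ p) * o (MvPolynomial.X 0) ^ (p - 1) - (g₁ + o g * W ^ k) =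
        (g₁ ^ p * o (MvPolynomial.X 0) ^ (p - 1) - g₁) +
        ((o g * W ^ k) ^ p * o (MvPolynomial.X 0) ^ (p - 1) - o g * W ^ k) := by ring
    have e2 : (h₁ ^ p + (o h * W ^ k) ^ p) * o (MvPolynomial.X 1) ^ (p - 1) - (h₁ + o h * W ^ k) =
        (h₁ ^ p * o (MvPolynomial.X 1) ^ (p - 1) - h₁) +
        ((o h * W ^ k) ^ p * o (MvPolynomial.X 1) ^ (p - 1) - o h * W ^ k) := by ring
    rw [e1, e2, form_add]
    abel

end main

/-- brick IND -/
theorem t_IND : S_IND := by
  intro p _ F _ _ _ f L _ j σ h1 h2 H a b hab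
  have hp : p.Prime := Fact.out
  have hS : ((p : ℕ) : Cov p f) = 0 := by
    have h : ((p : ℕ) : F) = 0 := CharP.cast_eq_zero F p
    have := congrArg ((AdjoinRoot.of (eqn p f)).comp MvPolynomial.C) h
    rwa [map_natCast, map_zero] at this
  have hmk : ∀ q : Polynomial (MvPolynomial (Fin 2) F),
      AdjoinRoot.mk (eqn p f) q = eval₂ (AdjoinRoot.of (eqn p f)) (AdjoinRoot.root (eqn p f)) q := by
    intro q
    induction q using Polynomial.induction_on' with
    | add q r hq hr => rw [map_add, hq, hr, eval₂_add]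
    | monomial n a =>
      rw [eval₂_monomial, ← C_mul_X_pow_eq_monomial, map_mul, map_pow, AdjoinRoot.mk_X]
      rfl
  have hdeg : (-X - C f : Polynomial (MvPolynomial (Fin 2) F)).degree < (p : WithBot ℕ) := by
    refine lt_of_le_of_lt (degree_sub_le _ _) ?_
    rw [max_lt_iff]
    constructor
    · rw [degree_neg]
      refine lt_of_le_of_lt degree_X_le ?_
      exact_mod_cast hp.one_lt
    · refine lt_of_le_of_lt degree_C_le ?_
      exact_mod_cast hp.pos
  have heq : eqn p f = X ^ p + (-X - C f) := by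
    unfold eqn
    ring
  have hmonic : (eqn p f).Monic := by
    rw [heq]
    exact monic_X_pow_add hdeg
  have hdegE : (eqn p f).degree = p := by
    rw [heq, degree_add_eq_left_of_degree_lt, degree_X_pow]
    rw [degree_X_pow]
    exact hdeg
  have hrep : ∀ y : Cov p f, ∃ q : Polynomial (MvPolynomial (Fin 2) F),
      (∀ m, p ≤ m → q.coeff m = 0) ∧
      y = eval₂ (AdjoinRoot.of (eqn p f)) (AdjoinRoot.root (eqn p f)) q := by
    intro y
    obtain ⟨q, rfl⟩ := AdjoinRoot.mk_surjective y
    refine ⟨q %ₘ eqn p f, ?_, ?_⟩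
    · have h5 := degree_modByMonic_lt q hmonic
      rw [hdegE] at h5
      intro m hm
      exact coeff_eq_zero_of_degree_lt (lt_of_lt_of_le h5 (by exact_mod_cast hm))
    · rw [← hmk, modByMonic_eq_sub_mul_div _ (eqn p f), map_sub, map_mul, AdjoinRoot.mk_self,
        zero_mul, sub_zero]
  obtain ⟨q, hq, rfl⟩ := hrep a
  obtain ⟨r, hr, rfl⟩ := hrep b
  exact ind_main hS (AdjoinRoot.of (eqn p f)) (AdjoinRoot.root (eqn p f)) (eval_root p f) j σ h1 h2 H p
    le_rfl q r hq hr hab

end Pool.Agent.K3h16.AS
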